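import Pool.Agent.W128.VA.Stm

/-!
# Project VA: the commutator `[e_m, f_n]` on the Fock space
-/

set_option autoImplicit false

namespace Pool.Agent.W499.VA.EF

open Finset Pool.Agent.W128.VA

theorem PZ_neg (σ s : ℤ) (h : s < 0) : PZ σ s = 0 := by
  unfold PZ
  rw [if_neg (by omega)]

theorem PZ_nat (σ : ℤ) (n : ℕ) : PZ σ (n : ℤ) = P σ n := by
  unfold PZ
  rw [if_pos (by omega)]
  simp

theorem PZ_toNat (σ s : ℤ) (h : 0 ≤ s) : PZ σ s = P σ s.toNat := by
  unfold PZ
  rw [if_pos h]

theorem sum_up {M : Type*} [AddCommMonoid M] (f : ℤ → M) (c : ℤ) (L : ℕ) :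
    ∑ i ∈ range L, f (c + i) = ∑ p ∈ Finset.Ico c (c + L), f p := by
  have e : Finset.Ico c (c + L) = (range L).image fun i : ℕ => c + (i : ℤ) := by
    ext p
    simp only [Finset.mem_Ico, Finset.mem_image, Finset.mem_range]
    constructor
    · intro h
      exact ⟨(p - c).toNat, by omega, by omega⟩
    · rintro ⟨i, hi, rfl⟩
      omega
  rw [e, Finset.sum_image]
  intro x _ y _ h
  have h' : c + (x : ℤ) = c + (y : ℤ) := h
  omega

theorem sum_down {M : Type*} [AddCommMonoid M] (f : ℤ → M) (c : ℤ) (L : ℕ) :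
    ∑ i ∈ range L, f (c - i) = ∑ p ∈ Finset.Ioc (c - L) c, f p := by
  have e : Finset.Ioc (c - L) c = (range L).image fun i : ℕ => c - (i : ℤ) := by
    ext p
    simp only [Finset.mem_Ioc, Finset.mem_image, Finset.mem_range]
    constructor
    · intro h
      exact ⟨(c - p).toNat, by omega, by omega⟩
    · rintro ⟨i, hi, rfl⟩
      omega
  rw [e, Finset.sum_image]
  intro x _ y _ h
  have h' : c - (x : ℤ) = c - (y : ℤ) := h
  omega

/-- The summand. -/
noncomputable def g (b s p : ℤ) : R0 :=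
  (((p - b + 1 : ℤ)) : ℂ) • (PZ 1 p * PZ (-1) (s - p))

theorem g_out (b s p : ℤ) (h : p < 0 ∨ s < p) : g b s p = 0 := by
  unfold g
  rcases h with h | h
  · rw [PZ_neg 1 p h, zero_mul, smul_zero]
  · rw [PZ_neg (-1) (s - p) (by omega), mul_zero, smul_zero]

theorem g_mid (b s : ℤ) : g b s (b - 1) = 0 := by
  unfold g
  have : (b - 1 - b + 1 : ℤ) = 0 := by ring
  rw [this, Int.cast_zero, zero_smul]

theorem part1 (hE : S_EOPP) (a b : ℤ) :
    eop 1 b (PZ (-1) a) = ∑ p ∈ (Finset.Icc 0 (a + b)).filter (fun p => b ≤ p), g b (a + b) p := by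
  rcases lt_or_ge a 0 with ha | ha
  · rw [PZ_neg _ _ ha, map_zero]
    symm
    refine Finset.sum_eq_zero fun p hp => ?_
    simp only [Finset.mem_filter, Finset.mem_Icc] at hp
    omega
  · rw [PZ_toNat _ _ ha]
    have h := (hE 1 (Or.inl rfl) b).2 a.toNat
    rw [h]
    have h2 : ∑ i ∈ range (a.toNat + 1), ((i : ℂ) + 1) • (PZ 1 (b + i) * P (-1) (a.toNat - i)) =
        ∑ i ∈ range (a.toNat + 1), g b (a + b) (b + i) := by
      refine Finset.sum_congr rfl fun i hi => ?_
      have hi' : i < a.toNat + 1 := Finset.mem_range.1 hi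
      unfold g
      have e1 : (a + b - (b + i) : ℤ) = ((a.toNat - i : ℕ) : ℤ) := by omega
      have e2 : (b + i - b + 1 : ℤ) = ((i + 1 : ℕ) : ℤ) := by
        push_cast
        ring
      rw [e1, e2, PZ_nat]
      push_cast
      rfl
    rw [h2, sum_up (g b (a + b)) b (a.toNat + 1)]
    symm
    refine Finset.sum_subset ?_ ?_
    · intro p hp
      simp only [Finset.mem_filter, Finset.mem_Icc] at hp
      rw [Finset.mem_Ico]
      push_cast
      omega
    · intro p hp hp'
      refine g_out _ _ _ ?_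
      by_contra hcon
      apply hp'
      rw [Finset.mem_Ico] at hp
      simp only [Finset.mem_filter, Finset.mem_Icc]
      omega

theorem part2 (hE : S_EOPP) (a b : ℤ) :
    eop (-1) (a + 2) (PZ 1 (b - 2)) =
      -∑ p ∈ (Finset.Icc 0 (a + b)).filter (fun p => ¬ b ≤ p), g b (a + b) p := by
  rcases lt_or_ge (b - 2) 0 with hb | hb
  · rw [PZ_neg _ _ hb, map_zero]
    symm
    rw [neg_eq_zero]
    refine Finset.sum_eq_zero fun p hp => ?_
    simp only [Finset.mem_filter, Finset.mem_Icc] at hp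
    have : p = b - 1 := by omega
    rw [this]
    exact g_mid _ _
  · rw [PZ_toNat _ _ hb]
    have h := (hE (-1) (Or.inr rfl) (a + 2)).2 (b - 2).toNat
    rw [neg_neg] at h
    rw [h]
    have h2 : ∑ i ∈ range ((b - 2).toNat + 1),
        ((i : ℂ) + 1) • (PZ (-1) (a + 2 + i) * P 1 ((b - 2).toNat - i)) =
        -∑ i ∈ range ((b - 2).toNat + 2), g b (a + b) (b - 1 - i) := by
      rw [Finset.sum_range_succ' (fun i : ℕ => g b (a + b) (b - 1 - i)) ((b - 2).toNat + 1)]
      have e0 : b - 1 - ((0 : ℕ) : ℤ) = b - 1 := by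
        push_cast
        ring
      rw [e0, g_mid, add_zero, ← Finset.sum_neg_distrib]
      refine Finset.sum_congr rfl fun i hi => ?_
      have hi' : i < (b - 2).toNat + 1 := Finset.mem_range.1 hi
      unfold g
      have e1 : (a + b - (b - 1 - ((i + 1 : ℕ) : ℤ)) : ℤ) = a + 2 + i := by
        push_cast
        ring
      have e2 : (b - 1 - ((i + 1 : ℕ) : ℤ)) = (((b - 2).toNat - i : ℕ) : ℤ) := by omega
      have e3 : (b - 1 - ((i + 1 : ℕ) : ℤ) - b + 1 : ℤ) = -((i + 1 : ℕ) : ℤ) := by
        push_cast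
        ring
      rw [e1, e3, e2, PZ_nat, mul_comm (P 1 _), ← neg_smul]
      push_cast
      congr 1
      ring
    rw [h2, sum_down (g b (a + b)) (b - 1) ((b - 2).toNat + 2)]
    congr 1
    symm
    refine Finset.sum_subset ?_ ?_
    · intro p hp
      simp only [Finset.mem_filter, Finset.mem_Icc] at hp
      rw [Finset.mem_Ioc]
      push_cast
      omega
    · intro p hp hp'
      refine g_out _ _ _ ?_
      by_contra hcon
      apply hp'
      rw [Finset.mem_Ioc] at hp
      simp only [Finset.mem_filter, Finset.mem_Icc]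
      omega

theorem total (hP : S_PINV) (b s : ℤ) : ∑ p ∈ Finset.Icc 0 s, g b s p =
    (if 0 < s then (MvPolynomial.X (s - 1).toNat : R0) else 0) +
      (if s = 0 then ((1 - b : ℤ) : ℂ) else 0) • (1 : R0) := by
  rcases lt_or_ge s 0 with hs | hs
  · rw [if_neg (by omega), if_neg (by omega), zero_smul, add_zero]
    refine Finset.sum_eq_zero fun p hp => ?_
    rw [Finset.mem_Icc] at hp
    omega
  · obtain ⟨t, rfl⟩ := Int.eq_ofNat_of_zero_le hs
    have e : Finset.Icc (0 : ℤ) (t : ℤ) = Finset.Ico 0 (0 + ((t + 1 : ℕ) : ℤ)) := by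
      ext p
      rw [Finset.mem_Icc, Finset.mem_Ico]
      omega
    rw [e, ← sum_up (g b t) 0 (t + 1)]
    obtain ⟨h1, h2⟩ := hP 1 t
    have h3 : ∑ i ∈ range (t + 1), g b t (0 + (i : ℤ)) =
        ∑ i ∈ range (t + 1), (i : ℂ) • (P 1 i * P (-1) (t - i)) +
          ((1 - b : ℤ) : ℂ) • ∑ i ∈ range (t + 1), P 1 i * P (-1) (t - i) := by
      rw [Finset.smul_sum, ← Finset.sum_add_distrib]
      refine Finset.sum_congr rfl fun i hi => ?_
      have hi' : i < t + 1 := Finset.mem_range.1 hi
      unfold g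
      have e1 : ((t : ℤ) - (0 + (i : ℤ))) = ((t - i : ℕ) : ℤ) := by omega
      rw [e1, zero_add, PZ_nat, PZ_nat, ← add_smul]
      congr 1
      push_cast
      ring
    rw [h3, h1, h2]
    rcases Nat.eq_zero_or_pos t with ht | ht
    · subst ht
      simp
    · have e4 : ((t : ℤ) - 1).toNat = t - 1 := by omega
      rw [if_neg (by omega), if_neg (by omega), if_pos (by omega), if_neg (by omega), e4]
      simp

/-- The defect. -/
noncomputable def Phi (m n : ℤ) (v : V0) : V0 :=
  eV 1 m (eV (-1) n v) - eV (-1) n (eV 1 m v) - hop (m + n) v -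
    (if m + n = 0 then (m : ℂ) else 0) • v

theorem Phi_add (m n : ℤ) (v w : V0) : Phi m n (v + w) = Phi m n v + Phi m n w := by
  simp only [Phi, map_add, smul_add]
  abel

theorem Phi_smul (m n : ℤ) (c : ℂ) (v : V0) : Phi m n (c • v) = c • Phi m n v := by
  simp only [Phi, map_smul, smul_sub]
  congr 1
  rw [smul_comm]

theorem Phi_one (hC : S_EOPC) (hE : S_EOPP) (hP : S_PINV) (m n k : ℤ) :
    Phi m n (Finsupp.single k 1) = 0 := by
  have e1 : eV 1 m (eV (-1) n (Finsupp.single k 1)) =
      Finsupp.single k (eop 1 (-m + 1 - 2 * k) (PZ (-1) (-n - 1 + 2 * k))) := by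
    have q1 : k + -1 + 1 = k := by ring
    have q2 : -m - 1 - 2 * 1 * (k + -1) = -m + 1 - 2 * k := by ring
    have q3 : -n - 1 - 2 * -1 * k = -n - 1 + 2 * k := by ring
    rw [eV_single, eV_single, (hC _ _).2.2, q1, q2, q3]
  have e2 : eV (-1) n (eV 1 m (Finsupp.single k 1)) =
      Finsupp.single k (eop (-1) (-n - 1 + 2 * k + 2) (PZ 1 (-m + 1 - 2 * k - 2))) := by
    have q1 : k + 1 + -1 = k := by ring
    have q2 : -n - 1 - 2 * -1 * (k + 1) = -n - 1 + 2 * k + 2 := by ring
    have q3 : -m - 1 - 2 * 1 * k = -m + 1 - 2 * k - 2 := by ring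
    rw [eV_single, eV_single, (hC _ _).2.2, q1, q2, q3]
  have e3 := Finset.sum_filter_add_sum_filter_not
    (Finset.Icc 0 (-n - 1 + 2 * k + (-m + 1 - 2 * k))) (fun p => -m + 1 - 2 * k ≤ p)
    (g (-m + 1 - 2 * k) (-n - 1 + 2 * k + (-m + 1 - 2 * k)))
  rw [total hP] at e3
  have e4 : -n - 1 + 2 * k + (-m + 1 - 2 * k) = -(m + n) := by ring
  unfold Phi
  rw [e1, e2, part1 hE, part2 hE, hop_single]
  rw [← Finsupp.single_sub, ← Finsupp.single_sub, Finsupp.smul_single, ← Finsupp.single_sub,
    sub_neg_eq_add, e3, e4]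
  suffices h : ((if 0 < -(m + n) then (MvPolynomial.X (-(m + n) - 1).toNat : R0) else 0) +
      (if -(m + n) = 0 then ((1 - (-m + 1 - 2 * k) : ℤ) : ℂ) else 0) • (1 : R0)) -
      hR (m + n) k 1 - (if m + n = 0 then (m : ℂ) else 0) • (1 : R0) = 0 by
    rw [h, Finsupp.single_zero]
  unfold hR
  rcases lt_trichotomy (m + n) 0 with h | h | h
  · rw [if_pos (by omega), if_neg (by omega), if_pos h, if_neg (by omega)]
    simp
  · rw [if_neg (by omega), if_pos (by omega), if_neg (by omega), if_pos h, if_pos h]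
    have : ((1 - (-m + 1 - 2 * k) : ℤ) : ℂ) = 2 * (k : ℂ) + m := by
      push_cast
      ring
    rw [this, add_smul]
    simp
  · rw [if_neg (by omega), if_neg (by omega), if_neg (by omega), if_neg (by omega),
      if_neg (by omega)]
    simp

theorem Phi_hop (hHE : S_HE) (hHH : S_HH) (m n j : ℤ) (v : V0) :
    Phi m n (hop (-j) v) = hop (-j) (Phi m n v) - (2 : ℂ) • Phi (m - j) n v +
      (2 : ℂ) • Phi m (n - j) v := by
  have a1 : ∀ (m : ℤ) (v : V0), eV 1 m (hop (-j) v) =
      hop (-j) (eV 1 m v) - (2 : ℂ) • eV 1 (m - j) v := by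
    intro m v
    have := hHE 1 (-j) m v
    have e : -j + m = m - j := by ring
    rw [e] at this
    push_cast at this
    rw [mul_one] at this
    rw [← this]
    abel
  have a2 : ∀ (n : ℤ) (v : V0), eV (-1) n (hop (-j) v) =
      hop (-j) (eV (-1) n v) + (2 : ℂ) • eV (-1) (n - j) v := by
    intro n v
    have := hHE (-1) (-j) n v
    have e : -j + n = n - j := by ring
    rw [e] at this
    push_cast at this
    rw [mul_neg, mul_one, neg_smul] at this
    have h2 : (2 : ℂ) • eV (-1) (n - j) v =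
        -(hop (-j) (eV (-1) n v) - eV (-1) n (hop (-j) v)) := by
      rw [this, neg_neg]
    rw [h2]
    abel
  have a3 : hop (m + n) (hop (-j) v) = hop (-j) (hop (m + n) v) +
      (if m + n - j = 0 then (2 * ((m + n : ℤ) : ℂ)) else 0) • v := by
    have := hHH (m + n) (-j) v
    have e : m + n + -j = m + n - j := by ring
    rw [e] at this
    rw [← this]
    abel
  have e1 : m - j + n = m + n - j := by ring
  have e2 : m + (n - j) = m + n - j := by ring
  unfold Phi
  rw [a2 n v, map_add, a1 m (eV (-1) n v), a1 m v, map_sub, a2 n (eV 1 m v), a3, e1, e2]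
  simp only [map_sub, map_smul, smul_sub]
  by_cases h : m + n - j = 0
  · rw [if_pos h, if_pos h, if_pos h]
    have hj : j = m + n := by omega
    subst hj
    push_cast
    module
  · rw [if_neg h, if_neg h, if_neg h]
    module

theorem Phi_single (hC : S_EOPC) (hE : S_EOPP) (hP : S_PINV) (hHE : S_HE) (hHH : S_HH)
    (k : ℤ) (p : R0) : ∀ m n : ℤ, Phi m n (Finsupp.single k p) = 0 := by
  induction p using MvPolynomial.induction_on with
  | C a =>
    intro m n
    have : (Finsupp.single k (MvPolynomial.C a) : V0) = a • Finsupp.single k 1 := by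
      rw [Finsupp.smul_single]
      congr 1
      rw [MvPolynomial.smul_eq_C_mul, mul_one]
    rw [this, Phi_smul, Phi_one hC hE hP, smul_zero]
  | add p q hp hq =>
    intro m n
    rw [Finsupp.single_add, Phi_add, hp, hq, add_zero]
  | mul_X p i hp =>
    intro m n
    have : (Finsupp.single k (p * MvPolynomial.X i) : V0) =
        hop (-((i : ℤ) + 1)) (Finsupp.single k p) := by
      rw [hop_single]
      congr 1
      unfold hR
      rw [if_pos (by omega)]
      have : (-(-((i : ℤ) + 1)) - 1).toNat = i := by omega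
      rw [this]
      simp [mul_comm]
    rw [this, Phi_hop hHE hHH, hp, hp, hp]
    simp

theorem main : S_EOPP → S_EOPC → S_PINV → S_HE → S_HH → S_EF := by
  intro hE hC hP hHE hHH m n v
  have h : Phi m n v = 0 := by
    induction v using Finsupp.induction_linear with
    | zero => simp [Phi]
    | add v w hv hw => rw [Phi_add, hv, hw, add_zero]
    | single k p => exact Phi_single hC hE hP hHE hHH k p m n
  unfold Phi at h
  rw [sub_eq_zero, sub_eq_iff_eq_add] at h
  rw [h, add_comm]

end Pool.Agent.W499.VA.EF
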